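import Pool.Agent.Q72.MX.Stm2

/-! # Project MX (helper72): job D2, reduction to additively independent functions -/

set_option autoImplicit false

namespace Pool.Agent.Q285.MX

open Polynomial Pool.Agent.W996.EC Pool.Agent.Q72.MX

theorem reg_zero (T : Set (ℂ × ℂ)) : Reg T (fun _ => 0) := by
  refine ⟨0, 1, fun p _ => ⟨?_, ?_⟩⟩
  · rw [evalEval_one]; exact one_ne_zero
  · rw [evalEval_zero, zero_div]

theorem reg_add {T : Set (ℂ × ℂ)} {f g : ℂ × ℂ → ℂ} (hf : Reg T f) (hg : Reg T g) :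
    Reg T (fun p => f p + g p) := by
  obtain ⟨A, B, h1⟩ := hf
  obtain ⟨A', B', h2⟩ := hg
  refine ⟨A * B' + B * A', B * B', fun p hp => ⟨?_, ?_⟩⟩
  · rw [evalEval_mul]
    exact mul_ne_zero (h1 p hp).1 (h2 p hp).1
  · show f p + g p = _
    rw [(h1 p hp).2, (h2 p hp).2, evalEval_mul, evalEval_add, evalEval_mul, evalEval_mul,
      div_add_div _ _ (h1 p hp).1 (h2 p hp).1]

theorem reg_smul {T : Set (ℂ × ℂ)} {f : ℂ × ℂ → ℂ} (hf : Reg T f) (c : ℂ) :
    Reg T (fun p => c * f p) := by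
  obtain ⟨A, B, h1⟩ := hf
  refine ⟨C (C c) * A, B, fun p hp => ⟨(h1 p hp).1, ?_⟩⟩
  show c * f p = _
  rw [(h1 p hp).2, evalEval_mul, evalEval_C, eval_C, mul_div_assoc]

theorem reg_sum {T : Set (ℂ × ℂ)} {ι : Type} (s : Finset ι) (f : ι → ℂ × ℂ → ℂ)
    (hf : ∀ i ∈ s, Reg T (f i)) : Reg T (fun p => ∑ i ∈ s, f i p) := by
  classical
  induction s using Finset.induction_on with
  | empty => simpa using reg_zero T
  | insert a s ha ih =>
    have h1 := reg_add (hf a (Finset.mem_insert_self a s))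
      (ih fun i hi => hf i (Finset.mem_insert_of_mem hi))
    refine (funext fun p => ?_ : (fun p => ∑ i ∈ insert a s, f i p) =
      fun p => f a p + ∑ i ∈ s, f i p) ▸ h1
    rw [Finset.sum_insert ha]

theorem reg_dt {T : Set (ℂ × ℂ)} {b : ℕ} {S : Fin b → ℂ × ℂ → ℂ} (hS : ∀ j, Reg T (S j))
    (β : Fin b → ℤ) : Reg T (dt S β) :=
  reg_sum Finset.univ _ fun j _ => reg_smul (hS j) _

theorem dt_add {b : ℕ} (S : Fin b → ℂ × ℂ → ℂ) (β γ : Fin b → ℤ) (p : ℂ × ℂ) :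
    dt S (β + γ) p = dt S β p + dt S γ p := by
  unfold dt
  rw [← Finset.sum_add_distrib]
  refine Finset.sum_congr rfl fun j _ => ?_
  rw [Pi.add_apply]
  push_cast
  ring

theorem dt_zsmul {b : ℕ} (S : Fin b → ℂ × ℂ → ℂ) (k : ℤ) (β : Fin b → ℤ) (p : ℂ × ℂ) :
    dt S (k • β) p = k * dt S β p := by
  unfold dt
  rw [Finset.mul_sum]
  refine Finset.sum_congr rfl fun j _ => ?_
  rw [Pi.smul_apply, smul_eq_mul]
  push_cast
  ring

theorem dt_sum {b : ℕ} (S : Fin b → ℂ × ℂ → ℂ) {ι : Type} (s : Finset ι) (k : ι → ℤ)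
    (β : ι → Fin b → ℤ) (p : ℂ × ℂ) :
    dt S (∑ i ∈ s, k i • β i) p = ∑ i ∈ s, (k i : ℂ) * dt S (β i) p := by
  classical
  induction s using Finset.induction_on with
  | empty => simp [dt]
  | insert a s ha ih =>
    rw [Finset.sum_insert ha, Finset.sum_insert ha, dt_add, dt_zsmul, ih]

theorem dt_single {b : ℕ} (S : Fin b → ℂ × ℂ → ℂ) (j : Fin b) (p : ℂ × ℂ) :
    dt S (Pi.single j 1) p = S j p := by
  unfold dt
  rw [Finset.sum_eq_single j]
  · simp
  · intro i _ hi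
    rw [Pi.single_eq_of_ne hi]
    simp
  · intro h
    exact absurd (Finset.mem_univ j) h

/-- the integer combinations which are constant on the curve -/
def lat {b : ℕ} (T : Set (ℂ × ℂ)) (S : Fin b → ℂ × ℂ → ℂ) : Submodule ℤ (Fin b → ℤ) where
  carrier := {m | ∃ c : ℂ, ∀ p ∈ T, dt S m p = c}
  add_mem' := by
    rintro m m' ⟨c, hc⟩ ⟨c', hc'⟩
    exact ⟨c + c', fun p hp => by rw [dt_add, hc p hp, hc' p hp]⟩
  zero_mem' := ⟨0, fun p _ => by simp [dt]⟩
  smul_mem' := by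
    rintro k m ⟨c, hc⟩
    exact ⟨k * c, fun p hp => by rw [dt_zsmul, hc p hp]⟩

theorem mem_lat {b : ℕ} {T : Set (ℂ × ℂ)} {S : Fin b → ℂ × ℂ → ℂ} {m : Fin b → ℤ} :
    m ∈ lat T S ↔ ∃ c : ℂ, ∀ p ∈ T, dt S m p = c := Iff.rfl

theorem d2 : S_D2 := by
  classical
  intro b F h S hC hS
  obtain ⟨L, hL⟩ : ∃ L : Submodule ℤ (Fin b → ℤ), L = lat (TT F h) S := ⟨_, rfl⟩
  have htf : Module.IsTorsionFree ℤ ((Fin b → ℤ) ⧸ L) := by
    rw [Module.isTorsionFree_iff_smul_eq_zero]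
    intro k x hx
    rcases eq_or_ne k 0 with hk | hk
    · exact Or.inl hk
    right
    obtain ⟨m, rfl⟩ := Submodule.Quotient.mk_surjective L x
    rw [← Submodule.Quotient.mk_smul, Submodule.Quotient.mk_eq_zero, hL, mem_lat] at hx
    obtain ⟨c, hc⟩ := hx
    rw [Submodule.Quotient.mk_eq_zero, hL, mem_lat]
    have hk' : (k : ℂ) ≠ 0 := by exact_mod_cast hk
    refine ⟨c / k, fun p hp => ?_⟩
    rw [eq_div_iff hk', mul_comm, ← dt_zsmul]
    exact hc p hp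
  obtain ⟨n, ⟨B⟩⟩ : ∃ n : ℕ, Nonempty (Module.Basis (Fin n) ℤ ((Fin b → ℤ) ⧸ L)) :=
    ⟨_, ⟨Module.finBasis ℤ ((Fin b → ℤ) ⧸ L)⟩⟩
  choose σ hσ using fun l => Submodule.Quotient.mk_surjective L (B l)
  have hrel : ∀ j : Fin b, ∃ c : ℂ, ∀ p ∈ TT F h,
      S j p = ∑ l, ((B.repr (Submodule.Quotient.mk (Pi.single j 1)) l : ℤ) : ℂ) * dt S (σ l) p + c := by
    intro j
    obtain ⟨k, hk⟩ : ∃ k : Fin n → ℤ, k = fun l =>
        B.repr (Submodule.Quotient.mk (p := L) (Pi.single j 1)) l := ⟨_, rfl⟩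
    have h1 : (Pi.single j 1 : Fin b → ℤ) - ∑ l, k l • σ l ∈ L := by
      rw [← Submodule.Quotient.mk_eq_zero, Submodule.Quotient.mk_sub, sub_eq_zero]
      have h2 : (Submodule.Quotient.mk (p := L) (∑ l, k l • σ l)) = ∑ l, k l • B l := by
        have h3 : (Submodule.Quotient.mk (p := L) (∑ l, k l • σ l)) =
            L.mkQ (∑ l, k l • σ l) := rfl
        rw [h3, map_sum]
        refine Finset.sum_congr rfl fun l _ => ?_
        rw [map_smul]
        have h4 : L.mkQ (σ l) = B l := hσ l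
        rw [h4]
      rw [h2, hk, B.sum_repr]
    rw [hL, mem_lat] at h1
    obtain ⟨c, hc⟩ := h1
    refine ⟨c, fun p hp => ?_⟩
    have h5 : dt S (Pi.single j 1) p =
        dt S ((Pi.single j 1 : Fin b → ℤ) - ∑ l, k l • σ l) p + dt S (∑ l, k l • σ l) p := by
      rw [← dt_add, sub_add_cancel]
    rw [dt_single, hc p hp, dt_sum] at h5
    rw [h5, add_comm, hk]
  choose c hc using hrel
  refine ⟨n, fun l => dt S (σ l), fun j l => B.repr (Submodule.Quotient.mk (Pi.single j 1)) l, c,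
    ⟨fun l => reg_dt hS _, ?_⟩, fun p hp j => hc j p hp⟩
  rintro m hm ⟨e, he⟩
  apply hm
  have h1 : ∑ l, m l • σ l ∈ L := by
    rw [hL, mem_lat]
    refine ⟨e, fun p hp => ?_⟩
    rw [dt_sum]
    exact he p hp
  have h2 : ∑ l, m l • B l = 0 := by
    have h3 : L.mkQ (∑ l, m l • σ l) = 0 := (Submodule.Quotient.mk_eq_zero L).2 h1
    rw [map_sum] at h3
    rw [← h3]
    refine Finset.sum_congr rfl fun l _ => ?_
    rw [map_smul]
    have h4 : L.mkQ (σ l) = B l := hσ l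
    rw [h4]
  have h5 := Fintype.linearIndependent_iff.1 B.linearIndependent m h2
  funext l
  exact h5 l

end Pool.Agent.Q285.MX
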