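import Pool.Agent.Q72.MX.Stm2
import Pool.Agent.W335.EC.QFin
import Pool.Agent.W114.ECRes

/-! # Project MX (helper72): job DQ, the final dichotomy -/

set_option autoImplicit false

namespace Pool.Agent.Q285.MX

open Pool.Agent.W996.EC Pool.Agent.Q72.MX
open Polynomial Filter Topology
open Pool.W335.EC (countable_zeros exp_fibres map_ne)

theorem dq (h1 : S_D3) : S_DQ := by
  classical
  intro a b K F H A B A' B' f P hF hd hH hAi hBi hBi' hf
  have h2 := Pool.Agent.W114.ECR.t_res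
  -- the good polynomial
  obtain ⟨ρH, hρH, hzH⟩ := finite_zeros h2 hF hd hH
  choose ρA hρA hzA using fun i => finite_zeros h2 hF hd (hAi i)
  choose ρB hρB hzB using fun i => finite_zeros h2 hF hd (hBi i)
  choose ρC hρC hzC using fun j => finite_zeros h2 hF hd (hBi' j)
  obtain ⟨h, hdvd, hC⟩ := Pool.Agent.W114.ECR.t_cov F
    (ρH * ((∏ i, ρA i) * ((∏ i, ρB i) * ∏ j, ρC j))) hF hd
    (mul_ne_zero hρH (mul_ne_zero (Finset.prod_ne_zero_iff.2 fun i _ => hρA i)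
      (mul_ne_zero (Finset.prod_ne_zero_iff.2 fun i _ => hρB i)
        (Finset.prod_ne_zero_iff.2 fun j _ => hρC j))))
  have hh0 : ∀ z, h.eval z ≠ 0 →
      (ρH * ((∏ i, ρA i) * ((∏ i, ρB i) * ∏ j, ρC j))).eval z ≠ 0 := by
    intro z hz h0
    obtain ⟨k, rfl⟩ := hdvd
    rw [eval_mul, h0, zero_mul] at hz
    exact hz rfl
  have hne : ∀ p ∈ TT F h, H.evalEval p.1 p.2 ≠ 0 ∧ (∀ i, (A i).evalEval p.1 p.2 ≠ 0) ∧
      (∀ i, (B i).evalEval p.1 p.2 ≠ 0) ∧ ∀ j, (B' j).evalEval p.1 p.2 ≠ 0 := by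
    rintro p ⟨hp1, hp2⟩
    have h1 := hh0 p.1 hp2
    rw [eval_mul, eval_mul, eval_mul, eval_prod, eval_prod, eval_prod] at h1
    have h2 := left_ne_zero_of_mul h1
    have h3 := left_ne_zero_of_mul (right_ne_zero_of_mul h1)
    have h4 := left_ne_zero_of_mul (right_ne_zero_of_mul (right_ne_zero_of_mul h1))
    have h4' := right_ne_zero_of_mul (right_ne_zero_of_mul (right_ne_zero_of_mul h1))
    rw [Finset.prod_ne_zero_iff] at h3 h4 h4'
    exact ⟨fun h5 => h2 (hzH _ _ hp1 h5), fun i h5 => h3 i (Finset.mem_univ i) (hzA i _ _ hp1 h5),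
      fun i h5 => h4 i (Finset.mem_univ i) (hzB i _ _ hp1 h5),
      fun j h5 => h4' j (Finset.mem_univ j) (hzC j _ _ hp1 h5)⟩
  obtain ⟨R, hR⟩ : ∃ R : Fin a → ℂ × ℂ → ℂ,
      R = fun i p => (A i).evalEval p.1 p.2 / (B i).evalEval p.1 p.2 := ⟨_, rfl⟩
  obtain ⟨S, hS⟩ : ∃ S : Fin b → ℂ × ℂ → ℂ,
      S = fun j p => (A' j).evalEval p.1 p.2 / (B' j).evalEval p.1 p.2 := ⟨_, rfl⟩
  have hreg : ∀ i, Reg (TT F h) (R i) := fun i =>
    ⟨A i, B i, fun p hp => ⟨(hne p hp).2.2.1 i, by rw [hR]⟩⟩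
  have hregS : ∀ j, Reg (TT F h) (S j) := fun j =>
    ⟨A' j, B' j, fun p hp => ⟨(hne p hp).2.2.2 j, by rw [hS]⟩⟩
  have hRne : ∀ i, ∀ p ∈ TT F h, R i p ≠ 0 := fun i p hp => by
    rw [hR]
    exact div_ne_zero ((hne p hp).2.1 i) ((hne p hp).2.2.1 i)
  have hdich := h1 a b K F h R S hC hreg hRne hregS f P hf
  -- the bad points
  obtain ⟨Bd, hBd⟩ : ∃ Bd : Set (ℂ × ℂ × (Fin a → ℂ)), Bd = {e | h.eval e.1 = 0 ∧
    F.evalEval e.1 e.2.1 = 0 ∧ H.evalEval e.1 e.2.1 ≠ 0 ∧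
    (∀ i, (A i).evalEval e.1 e.2.1 ≠ 0 ∧ (B i).evalEval e.1 e.2.1 ≠ 0) ∧
    (∀ j, (B' j).evalEval e.1 e.2.1 ≠ 0) ∧
    ∀ i, Complex.exp (e.2.2 i) = (A i).evalEval e.1 e.2.1 / (B i).evalEval e.1 e.2.1} := ⟨_, rfl⟩
  have hBc : Bd.Countable := by
    have hsub : Bd ⊆ ⋃ z ∈ {z : ℂ | h.eval z = 0}, ⋃ v ∈ {v : ℂ | F.evalEval z v = 0},
        (fun x : Fin a → ℂ => ((z, v, x) : ℂ × ℂ × (Fin a → ℂ))) ''
          {x | ∀ i, Complex.exp (x i) = (A i).evalEval z v / (B i).evalEval z v} := by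
      rintro ⟨z, v, x⟩ hx
      rw [hBd] at hx
      simp only [Set.mem_iUnion]
      exact ⟨z, hx.1, v, hx.2.1, x, hx.2.2.2.2.2, rfl⟩
    refine Set.Countable.mono hsub ?_
    have hz : {z : ℂ | h.eval z = 0}.Countable :=
      (Polynomial.finite_setOfPred_isRoot hC.hne).countable
    refine hz.biUnion fun z _ => ?_
    have hv : {v : ℂ | F.evalEval z v = 0}.Countable := by
      have h4 := (Polynomial.finite_setOfPred_isRoot (map_ne hF hd z)).countable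
      refine h4.mono ?_
      intro v hv
      show (F.map (evalRingHom z)).IsRoot v
      rw [Polynomial.IsRoot, ← evalEval_map]
      exact hv
    refine hv.biUnion fun v _ => ?_
    exact (exp_fibres _).image _
  -- the equation at a bad point
  obtain ⟨Eq, hEq⟩ : ∃ Eq : (ℂ × ℂ × (Fin a → ℂ)) → ℂ → ℂ, Eq = fun e s =>
      ∑ k, f k s * MvPolynomial.eval (Sum.elim e.2.2
        (fun j => Complex.exp ((A' j).evalEval e.1 e.2.1 / (B' j).evalEval e.1 e.2.1)))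
        (MvPolynomial.map (evalEvalRingHom e.1 e.2.1) (P k)) := ⟨_, rfl⟩
  have hX1sub : XS2 F h R S f P ⊆ XSQ F H A B A' B' f P := by
    rintro s ⟨⟨z, v⟩, hp, x, hx, hs⟩
    have h5 := hne (z, v) hp
    rw [hR] at hx
    rw [hS] at hs
    exact ⟨z, v, x, _, hp.1, h5.1, fun i => ⟨h5.2.1 i, h5.2.2.1 i⟩, h5.2.2.2, hx, fun j => rfl, hs⟩
  by_cases hall : ∃ e ∈ Bd, ∀ s : ℂ, Eq e s = 0
  · right
    obtain ⟨⟨z, v, x⟩, he, hs⟩ := hall
    rw [hBd] at he
    rw [hEq] at hs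
    have : (XSQ F H A B A' B' f P)ᶜ = ∅ := by
      ext s
      simp only [Set.mem_compl_iff, Set.mem_empty_iff_false, iff_false, not_not]
      exact ⟨z, v, x, _, he.2.1, he.2.2.1, he.2.2.2.1, he.2.2.2.2.1, he.2.2.2.2.2,
        fun j => rfl, hs s⟩
    rw [this]
    exact Set.countable_empty
  push Not at hall
  have hX2 : (⋃ e ∈ Bd, {s : ℂ | Eq e s = 0}).Countable := by
    refine hBc.biUnion fun e he => ?_
    refine countable_zeros ?_ (hall e he)
    rw [hEq]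
    exact Differentiable.fun_sum fun k _ => (hf k).mul_const _
  have hXsub : XSQ F H A B A' B' f P ⊆ XS2 F h R S f P ∪ ⋃ e ∈ Bd, {s : ℂ | Eq e s = 0} := by
    rintro s ⟨z, v, x, y, hzv, hHn, hAB, hB', hx, hy, hs⟩
    have hyf : y = fun j => Complex.exp ((A' j).evalEval z v / (B' j).evalEval z v) :=
      funext hy
    rw [hyf] at hs
    by_cases hhz : h.eval z = 0
    · right
      simp only [Set.mem_iUnion]
      refine ⟨(z, v, x), ?_, ?_⟩
      · rw [hBd]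
        exact ⟨hhz, hzv, hHn, hAB, hB', hx⟩
      · rw [hEq]
        exact hs
    · left
      refine ⟨(z, v), ⟨hzv, hhz⟩, x, ?_, ?_⟩
      · rw [hR]
        exact hx
      · rw [hS]
        exact hs
  rcases hdich with h6 | h6
  · left
    exact (h6.union hX2).mono hXsub
  · right
    exact h6.mono (Set.compl_subset_compl.2 hX1sub)

end Pool.Agent.Q285.MX
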